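import Mathlib
import Pool.Agent.H61.TwB

set_option autoImplicit false

namespace Pool.Agent.Results.MP_55ecfc_an.Even

open Set Filter Topology Pool.Agent.H61.TwB

theorem result (c ξ : ℝ) (hc : 0 < c ^ 2) (hc2 : c ^ 2 < 2) (z : ℝ → ℝ) (hz : ContDiff ℝ 4 z)
    (heq : ∀ t, iteratedDeriv 4 z t + c ^ 2 * iteratedDeriv 2 z t + max (z t + 1) 0
      - ξ * max (-(z t + 1)) 0 - 1 = 0)
    (l0 : Tendsto z atTop (𝓝 0)) (m0 : Tendsto z atBot (𝓝 0))
    (l1 : Tendsto (deriv z) atTop (𝓝 0)) (m1 : Tendsto (deriv z) atBot (𝓝 0))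
    (t1 t2 : ℝ) (h12 : t1 < t2)
    (one : {t | z t = -1} = {t1, t2} ∨ {t | z t < -1} = Ioo t1 t2) :
    ∃ t0, ∀ t, z (t0 + t) = z (t0 - t) := by
  obtain ⟨σ, hσ, hσ1, hk⟩ : ∃ σ : ℝ, 0 < σ ∧ σ < 1 ∧ c ^ 2 = 2 - 4 * σ ^ 2 := by
    have h1 : 0 < (2 - c ^ 2) / 4 := by linarith
    refine ⟨√((2 - c ^ 2) / 4), Real.sqrt_pos.2 h1, ?_, ?_⟩
    · rw [Real.sqrt_lt' one_pos]; linarith
    · rw [Real.sq_sqrt h1.le]; ring
  have hd : ∀ n : ℕ, n < 4 → ∀ t, HasDerivAt (iteratedDeriv n z) (iteratedDeriv (n + 1) z t) t := by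
    intro n hn t
    rw [iteratedDeriv_succ]
    exact (hz.differentiable_iteratedDeriv n (by exact_mod_cast hn) t).hasDerivAt
  have d0 : ∀ t, HasDerivAt z (iteratedDeriv 1 z t) t := by simpa using hd 0 (by norm_num)
  have hup : ∀ t, -1 ≤ z t → iteratedDeriv 4 z t = -c ^ 2 * iteratedDeriv 2 z t - z t := by
    intro t ht
    have := heq t
    rw [max_eq_left (by linarith), max_eq_right (by linarith)] at this
    linarith
  have hdown : ∀ t, z t ≤ -1 →
      iteratedDeriv 4 z t = -c ^ 2 * iteratedDeriv 2 z t - ξ * z t + (1 - ξ) := by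
    intro t ht
    have := heq t
    rw [max_eq_right (by linarith), max_eq_left (by linarith)] at this
    linarith
  have sh : ∀ (f : ℝ → ℝ) (m : ℝ), Tendsto f atTop (𝓝 0) →
      Tendsto (fun t => f (m + t)) atTop (𝓝 0) := fun f m h =>
    h.comp (tendsto_atTop_add_const_left _ m tendsto_id)
  have sh' : ∀ (f : ℝ → ℝ) (m : ℝ), Tendsto f atBot (𝓝 0) →
      Tendsto (fun t => f (m + t)) atBot (𝓝 0) := fun f m h =>
    h.comp (tendsto_atBot_add_const_left _ m tendsto_id)
  rw [← iteratedDeriv_one] at l1 m1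
  have hcont := hz.continuous
  have shape : (∀ t ∈ Icc t1 t2, z t ≤ -1) ∧ (∀ t ∉ Ioo t1 t2, -1 ≤ z t) := by
    rcases one with one | one
    · have o : ∀ t, z t = -1 ↔ t = t1 ∨ t = t2 := fun t => Set.ext_iff.1 one t
      have out : ∀ t ∉ Ioo t1 t2, -1 ≤ z t := by
        intro t ht
        by_contra hlt
        push Not at hlt
        rcases not_and_or.1 ht with h | h
        · obtain ⟨s, hs, hs'⟩ := ((m0.eventually (lt_mem_nhds (show (-1 : ℝ) < 0 by norm_num))).and
            (eventually_le_atBot t)).exists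
          obtain ⟨x, hx, hx'⟩ := intermediate_value_Ioo' hs' hcont.continuousOn ⟨hlt, hs⟩
          rcases (o x).1 hx' with e | e <;> linarith [hx.2, not_lt.1 h]
        · obtain ⟨s, hs, hs'⟩ := ((l0.eventually (lt_mem_nhds (show (-1 : ℝ) < 0 by norm_num))).and
            (eventually_ge_atTop t)).exists
          obtain ⟨x, hx, hx'⟩ := intermediate_value_Ioo hs' hcont.continuousOn ⟨hlt, hs⟩
          rcases (o x).1 hx' with e | e <;> linarith [hx.1, not_lt.1 h]
      refine ⟨fun t ht => ?_, out⟩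
      by_contra hlt
      push Not at hlt
      have all : ∀ s, -1 ≤ z s := by
        intro s
        by_contra hs
        push Not at hs
        have hs1 : s ∈ Ioo t1 t2 := by
          by_contra h
          linarith [out s h]
        rcases le_total s t with h | h
        · obtain ⟨x, hx, hx'⟩ := intermediate_value_Ioo h hcont.continuousOn ⟨hs, hlt⟩
          rcases (o x).1 hx' with e | e <;> linarith [hx.1, hx.2, hs1.1, ht.2]
        · obtain ⟨x, hx, hx'⟩ := intermediate_value_Ioo' h hcont.continuousOn ⟨hs, hlt⟩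
          rcases (o x).1 hx' with e | e <;> linarith [hx.1, hx.2, hs1.2, ht.1]
      obtain ⟨⟨P1, Q1⟩, P2, Q2⟩ := both (T := 0) hσ hσ1 hk
        (fun t => (d0 _).comp_const_add t1 t) (fun t => (hd 1 (by norm_num) _).comp_const_add t1 t)
        (fun t => (hd 2 (by norm_num) _).comp_const_add t1 t)
        (fun t => (hd 3 (by norm_num) _).comp_const_add t1 t)
        (fun t _ => ⟨hup _ (all _), hup _ (all _)⟩) (sh _ _ l0) (sh _ _ l1) (sh' _ _ m0)
        (sh' _ _ m1)
      simp only [neg_zero, add_zero, (o t1).2 (Or.inl rfl)] at P1 Q1 P2 Q2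
      have a1 : σ * iteratedDeriv 2 z t1 = 0 := by linarith
      have a2 : σ * iteratedDeriv 1 z t1 = 0 := by linarith
      have a3 := (mul_eq_zero.1 a1).resolve_left hσ.ne'
      linarith
    · have o : ∀ t, z t < -1 ↔ t ∈ Ioo t1 t2 := fun t => Set.ext_iff.1 one t
      refine ⟨fun t ht => ?_, fun t ht => not_lt.1 fun h => ht ((o t).1 h)⟩
      rw [← closure_Ioo h12.ne] at ht
      exact (isClosed_le hcont continuous_const).closure_subset_iff.2
        (fun s hs => ((o s).2 hs).le) ht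
  obtain ⟨hin, hout⟩ := shape
  have hge : ∀ t, (t2 - t1) / 2 ≤ t →
      -1 ≤ z ((t1 + t2) / 2 + t) ∧ -1 ≤ z ((t1 + t2) / 2 + -t) := fun t ht =>
    ⟨hout _ fun h => by linarith [h.2], hout _ fun h => by linarith [h.1]⟩
  refine ⟨(t1 + t2) / 2, fun t => ?_⟩
  rw [sub_eq_add_neg]
  exact core (ξ := ξ) (T := (t2 - t1) / 2) hσ hσ1 hk (by linarith)
    (fun t => (d0 _).comp_const_add _ t) (fun t => (hd 1 (by norm_num) _).comp_const_add _ t)
    (fun t => (hd 2 (by norm_num) _).comp_const_add _ t)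
    (fun t => (hd 3 (by norm_num) _).comp_const_add _ t)
    (fun t ht => hdown _ (hin _ ⟨by linarith [ht.1], by linarith [ht.2]⟩))
    (fun t ht => ⟨hup _ (hge t ht).1, hup _ (hge t ht).2⟩) hge
    (le_antisymm (hin _ ⟨by linarith, by linarith⟩) (hge _ le_rfl).1)
    (le_antisymm (hin _ ⟨by linarith, by linarith⟩) (hge _ le_rfl).2)
    (sh _ _ l0) (sh _ _ l1) (sh' _ _ m0) (sh' _ _ m1) t

end Pool.Agent.Results.MP_55ecfc_an.Even
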